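import Pool.Agent.H937.QS.Stm

/-!
# Project QS (helper937), task VAL: the charts cover (by helper720)
-/

set_option autoImplicit false

open scoped Matrix TensorProduct
open Pool.Agent.H937.QS

universe u

namespace Pool.Agent.H720.QS.VAL

section lemmas

variable {L : Type u} [Field L]

theorem div_mem_iff (V : ValuationSubring L) {x y : L} (hy : y ≠ 0) :
    x / y ∈ V ↔ V.valuation x ≤ V.valuation y := by
  rw [← V.valuation_le_one_iff, map_div₀, div_le_one₀ (zero_lt_iff.2 ((map_ne_zero _).2 hy))]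

theorem val_pos (V : ValuationSubring L) {x : L} (hx : x ≠ 0) : 0 < V.valuation x :=
  zero_lt_iff.2 ((map_ne_zero _).2 hx)

/-- Expansion of the determinant of four linear combinations. -/
theorem det_expand {n : ℕ} (w : Fin (n + 1) → Fin 4 → L) (c : Fin 4 → Fin (n + 1) → L) :
    (Matrix.of fun q i => (∑ l, c i l • w l) q).det =
      ∑ r : Fin 4 → Fin (n + 1), (∏ i, c i (r i)) * (Matrix.of fun q i => w (r i) q).det := by
  have h1 : ∀ X : Fin 4 → Fin 4 → L, (Matrix.of fun q i => X i q).det =
      (Matrix.detRowAlternating (R := L) (n := Fin 4)).toMultilinearMap X := by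
    intro X
    rw [← Matrix.det_transpose]
    rfl
  rw [h1 fun i => ∑ l, c i l • w l,
    (Matrix.detRowAlternating (R := L) (n := Fin 4)).toMultilinearMap.map_sum]
  refine Finset.sum_congr rfl fun r _ => ?_
  rw [MultilinearMap.map_smul_univ, smul_eq_mul, h1]

/-- Determinants of four elements of the span. -/
theorem span_det (V : ValuationSubring L) {n : ℕ} (w : Fin (n + 1) → Fin 4 → L)
    (D : V.ValueGroup)
    (hD : ∀ r : Fin 4 → Fin (n + 1), V.valuation (Matrix.of fun q i => w (r i) q).det ≤ D)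
    (X : Fin 4 → Fin 4 → L) (hX : ∀ i, InSpan V w (X i)) :
    V.valuation (Matrix.of fun q i => X i q).det ≤ D := by
  choose c hc hX using hX
  have h1 : (Matrix.of fun q i => X i q) = Matrix.of fun q i => (∑ l, c i l • w l) q := by
    ext q i
    rw [Matrix.of_apply, Matrix.of_apply, ← hX i]
  rw [h1, det_expand]
  refine Valuation.map_sum_le _ fun r _ => ?_
  rw [map_mul]
  have h2 : V.valuation (∏ i, c i (r i)) ≤ 1 :=
    (V.valuation_le_one_iff _).2 (prod_mem fun i _ => hc i _)
  calc V.valuation (∏ i, c i (r i)) * V.valuation (Matrix.of fun q i => w (r i) q).det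
      ≤ 1 * D := mul_le_mul' h2 (hD r)
    _ = D := one_mul D

theorem span_w (V : ValuationSubring L) {n : ℕ} (w : Fin (n + 1) → Fin 4 → L) (l : Fin (n + 1)) :
    InSpan V w (w l) := by
  refine ⟨Pi.single l 1, fun j => ?_, ?_⟩
  · by_cases h : j = l
    · rw [h, Pi.single_eq_same]
      exact V.one_mem
    · rw [Pi.single_eq_of_ne h]
      exact V.zero_mem
  · rw [Finset.sum_eq_single l]
    · rw [Pi.single_eq_same, one_smul]
    · intro j _ hj
      rw [Pi.single_eq_of_ne hj, zero_smul]
    · intro h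
      exact absurd (Finset.mem_univ _) h

theorem span_add (V : ValuationSubring L) {n : ℕ} (w : Fin (n + 1) → Fin 4 → L)
    {x y : Fin 4 → L} (hx : InSpan V w x) (hy : InSpan V w y) : InSpan V w (x + y) := by
  obtain ⟨c, hc, rfl⟩ := hx
  obtain ⟨d, hd, rfl⟩ := hy
  refine ⟨fun l => c l + d l, fun l => V.add_mem _ _ (hc l) (hd l), ?_⟩
  rw [← Finset.sum_add_distrib]
  exact Finset.sum_congr rfl fun l _ => (add_smul _ _ _).symm

theorem span_smul (V : ValuationSubring L) {n : ℕ} (w : Fin (n + 1) → Fin 4 → L)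
    {x : Fin 4 → L} (hx : InSpan V w x) {a : L} (ha : a ∈ V) : InSpan V w (a • x) := by
  obtain ⟨c, hc, rfl⟩ := hx
  refine ⟨fun l => a * c l, fun l => V.mul_mem _ _ ha (hc l), ?_⟩
  rw [Finset.smul_sum]
  exact Finset.sum_congr rfl fun l _ => smul_smul _ _ _

/-- Cramer's rule. -/
theorem co_cramer (N : Matrix (Fin 4) (Fin 4) L) (hN : N.det ≠ 0) (f : Fin 4 → L) (m : Fin 4) :
    N.det * co N f m = (N.updateCol m f).det := by
  have h1 := congrFun (Matrix.det_smul_inv_mulVec_eq_cramer N f (isUnit_iff_ne_zero.2 hN)) m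
  rw [Matrix.cramer_apply] at h1
  exact h1

theorem mul_co (N : Matrix (Fin 4) (Fin 4) L) (hN : N.det ≠ 0) (f : Fin 4 → L) :
    N *ᵥ co N f = f := by
  unfold co
  rw [Matrix.mulVec_mulVec, Matrix.mul_nonsing_inv _ (isUnit_iff_ne_zero.2 hN), Matrix.one_mulVec]

theorem Lam_eq (N : Matrix (Fin 4) (Fin 4) L) (hN : N.det ≠ 0) (X : Fin 15) :
    Lam N X = N.det * pL (sc N) X := by
  have h1 : dsc N = fun i j m => N.det * sc N i j m := by
    funext i j m
    rw [sc, co_cramer N hN]
    rfl
  unfold Lam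
  rw [h1]
  fin_cases X <;> simp only [pL] <;> simp <;> ring

theorem cols_apply (x y z : Fin 4 → L) (q i : Fin 4) : cols x y z q i = ![1, x q, y q, z q] i := rfl

theorem updateCol_cols (x y z f : Fin 4 → L) : (cols x y z).updateCol 3 f = cols x y f := by
  ext q i
  rw [Matrix.updateCol_apply, cols_apply, cols_apply]
  fin_cases i <;> simp

theorem Lam_two (x y z : Fin 4 → L) : Lam (cols x y z) 2 = -fd x y := by
  have h1 : Lam (cols x y z) 2 = -dsc (cols x y z) 0 1 3 := by
    unfold Lam
    simp [pL]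
  have h2 : dsc (cols x y z) 0 1 3 = fd x y := by
    unfold dsc fd
    rw [updateCol_cols]
    rfl
  rw [h1, h2]

theorem cols_eq (x y z : Fin 4 → L) :
    cols x y z = Matrix.of fun q i => (![1, x, y, z] : Fin 4 → Fin 4 → L) i q := by
  ext q i
  rw [cols_apply, Matrix.of_apply]
  fin_cases i <;> rfl

theorem span_zero (V : ValuationSubring L) {n : ℕ} (w : Fin (n + 1) → Fin 4 → L) :
    InSpan V w 0 :=
  ⟨fun _ => 0, fun _ => V.zero_mem, by simp⟩

theorem span_sum (V : ValuationSubring L) {n : ℕ} (w : Fin (n + 1) → Fin 4 → L) {ι : Type}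
    (s : Finset ι) (f : ι → Fin 4 → L) (h : ∀ l ∈ s, InSpan V w (f l)) :
    InSpan V w (∑ l ∈ s, f l) :=
  Finset.sum_induction f (InSpan V w) (fun _ _ => span_add V w) (span_zero V w) h

theorem span_mul (V : ValuationSubring L) {n : ℕ} (w : Fin (n + 1) → Fin 4 → L)
    (hp : ∀ i j, InSpan V w (w i * w j)) {x y : Fin 4 → L} (hx : InSpan V w x)
    (hy : InSpan V w y) : InSpan V w (x * y) := by
  obtain ⟨c, hc, rfl⟩ := hx
  obtain ⟨d, hd, rfl⟩ := hy
  rw [Finset.sum_mul_sum]
  refine span_sum V w _ _ fun i _ => span_sum V w _ _ fun j _ => ?_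
  rw [smul_mul_smul_comm]
  exact span_smul V w (hp i j) (V.mul_mem _ _ (hc i) (hd j))

theorem span_one (V : ValuationSubring L) {n : ℕ} (w : Fin (n + 1) → Fin 4 → L)
    (h0 : w 0 = 1) : InSpan V w 1 := h0 ▸ span_w V w 0

theorem pL_mem (C : Subring L) (s : Fin 3 → Fin 3 → Fin 4 → L) (hs : ∀ i j m, s i j m ∈ C)
    (X : Fin 15) : pL s X ∈ C := by
  have h1 : pL s X = ((pL (fun i j m => (⟨s i j m, hs i j m⟩ : C)) X : C) : L) := by
    have h2 : ((2 : C) : L) = 2 := map_ofNat C.subtype 2
    fin_cases X <;> simp [pL, h2]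
  rw [h1]
  exact Subtype.property _

/-- Step one: a basis of elements of the family with a determinant of maximal valuation. -/
theorem step1 (V : ValuationSubring L) {n : ℕ} (w : Fin (n + 1) → Fin 4 → L)
    (hV : ∀ i q, w i q ∈ V) (h0 : w 0 = 1) (hp : ∀ i j, InSpan V w (w i * w j))
    (hex : ∃ x y, InSpan V w x ∧ InSpan V w y ∧ fd x y ≠ 0) :
    ∃ i : Fin 3 → Fin (n + 1), (cols (w (i 0)) (w (i 1)) (w (i 2))).det ≠ 0 ∧
      ∀ r : Fin 4 → Fin (n + 1), V.valuation (Matrix.of fun q j => w (r j) q).det ≤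
        V.valuation (cols (w (i 0)) (w (i 1)) (w (i 2))).det := by
  obtain ⟨r0, hr0⟩ := Finite.exists_max
    (fun r : Fin 4 → Fin (n + 1) => V.valuation (Matrix.of fun q j => w (r j) q).det)
  obtain ⟨W0, hW0⟩ : ∃ W, W = Matrix.of fun q j => w (r0 j) q := ⟨_, rfl⟩
  rw [← hW0] at hr0
  have hne : W0.det ≠ 0 := by
    intro h
    obtain ⟨x, y, hx, hy, hf⟩ := hex
    apply hf
    have h1 := span_det V w (V.valuation W0.det) hr0 ![1, x, y, x * y] (fun i => by
      fin_cases i
      · exact span_one V w h0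
      · exact hx
      · exact hy
      · exact span_mul V w hp hx hy)
    rw [h, map_zero, ← cols_eq] at h1
    exact (map_eq_zero V.valuation).1 (le_antisymm h1 zero_le)
  obtain ⟨r, hr⟩ : ∃ r, 1 ≤ V.valuation (co W0 (w 0) r) := by
    by_contra hcon
    push Not at hcon
    have h1 := congrFun (mul_co W0 hne (w 0)) 0
    have h2 : (W0 *ᵥ co W0 (w 0)) 0 = ∑ j, W0 0 j * co W0 (w 0) j := rfl
    have h3 : V.valuation (∑ j, W0 0 j * co W0 (w 0) j) < 1 := by
      refine Valuation.map_sum_lt' _ zero_lt_one fun j _ => ?_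
      rw [map_mul]
      have h4 : V.valuation (W0 0 j) ≤ 1 := (V.valuation_le_one_iff _).2 (by
        rw [hW0]
        exact hV _ _)
      calc V.valuation (W0 0 j) * V.valuation (co W0 (w 0) j)
          ≤ 1 * V.valuation (co W0 (w 0) j) := mul_le_mul_left h4 _
        _ = V.valuation (co W0 (w 0) j) := one_mul _
        _ < 1 := hcon j
    rw [← h2, h1, h0, Pi.one_apply, map_one] at h3
    exact lt_irrefl _ h3
  let σ : Equiv.Perm (Fin 4) := Equiv.swap 0 r
  let r1 : Fin 4 → Fin (n + 1) := Function.update r0 r 0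
  let r2 : Fin 4 → Fin (n + 1) := fun j => r1 (σ j)
  have hr20 : r2 0 = 0 := by
    show Function.update r0 r 0 (Equiv.swap 0 r 0) = 0
    rw [Equiv.swap_apply_left, Function.update_self]
  have hc : cols (w (r2 1)) (w (r2 2)) (w (r2 3)) = Matrix.of fun q j => w (r2 j) q := by
    rw [cols_eq]
    ext q j
    rw [Matrix.of_apply, Matrix.of_apply]
    fin_cases j
    · show (1 : Fin 4 → L) q = w (r2 0) q
      rw [hr20, h0]
    · rfl
    · rfl
    · rfl
  have hu : W0.updateCol r (w 0) = Matrix.of fun q j => w (r1 j) q := by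
    ext q j
    rw [Matrix.updateCol_apply, Matrix.of_apply]
    by_cases h : j = r
    · rw [if_pos h, h]
      show w 0 q = w (Function.update r0 r 0 r) q
      rw [Function.update_self]
    · rw [if_neg h, hW0]
      show w (r0 j) q = w (Function.update r0 r 0 j) q
      rw [Function.update_of_ne h]
  have hd1 : V.valuation W0.det ≤ V.valuation (Matrix.of fun q j => w (r1 j) q).det := by
    rw [← hu, ← co_cramer W0 hne, map_mul]
    exact le_mul_of_one_le_right' hr
  have hd2 : V.valuation (Matrix.of fun q j => w (r2 j) q).det =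
      V.valuation (Matrix.of fun q j => w (r1 j) q).det := by
    have h1 := Matrix.det_permute' σ (Matrix.of fun q j => w (r1 j) q)
    have h2 : (Matrix.of fun q j => w (r1 j) q).submatrix id σ = Matrix.of fun q j => w (r2 j) q :=
      rfl
    rw [h2] at h1
    rw [h1, map_mul]
    rcases Int.units_eq_one_or (Equiv.Perm.sign σ) with h | h
    · rw [h]
      simp
    · rw [h]
      simp
  have hd3 : V.valuation W0.det ≤ V.valuation (cols (w (r2 1)) (w (r2 2)) (w (r2 3))).det := by
    rw [hc, hd2]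
    exact hd1
  refine ⟨fun k => r2 k.succ, ?_, fun r => (hr0 r).trans hd3⟩
  intro h
  have h' : (cols (w (r2 1)) (w (r2 2)) (w (r2 3))).det = 0 := h
  rw [h', map_zero] at hd3
  exact hne ((map_eq_zero V.valuation).1 (le_antisymm hd3 zero_le))

/-- The determinant `det (1, u, v, z)` as a linear form in `z`. -/
noncomputable def dl (u v : Fin 4 → L) : (Fin 4 → L) →ₗ[L] L :=
  (LinearMap.proj 3).comp (Matrix.cramer (cols u v 0))

theorem dl_apply (u v z : Fin 4 → L) : dl u v z = (cols u v z).det := by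
  unfold dl
  rw [LinearMap.comp_apply, LinearMap.proj_apply, Matrix.cramer_apply, updateCol_cols]

theorem dl_one (u v : Fin 4 → L) : dl u v 1 = 0 := by
  rw [dl_apply]
  exact Matrix.det_zero_of_column_eq (i := 0) (j := 3) (by decide) fun q => rfl

theorem dl_u (u v : Fin 4 → L) : dl u v u = 0 := by
  rw [dl_apply]
  exact Matrix.det_zero_of_column_eq (i := 1) (j := 3) (by decide) fun q => rfl

theorem dl_v (u v : Fin 4 → L) : dl u v v = 0 := by
  rw [dl_apply]
  exact Matrix.det_zero_of_column_eq (i := 2) (j := 3) (by decide) fun q => rfl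

end lemmas

theorem t_VAL (hP : S_P.{u}) (hT : S_T.{u}) (hPOL : S_POL.{u}) : S_VAL.{u} := by
  intro k L _ _ _ V hk a ha n w hV h0 hp hex
  obtain ⟨i, hne, hmax⟩ := step1 V w hV h0 hp hex
  obtain ⟨x0, y0, hx0, hy0, hf0⟩ := hex
  obtain ⟨N1, hN1⟩ : ∃ N, N = cols (w (i 0)) (w (i 1)) (w (i 2)) := ⟨_, rfl⟩
  rw [← hN1] at hne hmax
  have hdet : ∀ X : Fin 4 → Fin 4 → L, (∀ i, InSpan V w (X i)) →
      V.valuation (Matrix.of fun q i => X i q).det ≤ V.valuation N1.det :=
    fun X hX => span_det V w _ hmax X hX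
  have h1s : InSpan V w 1 := span_one V w h0
  have hcoldet : ∀ x y z : Fin 4 → L, InSpan V w x → InSpan V w y → InSpan V w z →
      V.valuation (cols x y z).det ≤ V.valuation N1.det := by
    intro x y z hx hy hz
    rw [cols_eq]
    refine hdet _ fun j => ?_
    fin_cases j
    · exact h1s
    · exact hx
    · exact hy
    · exact hz
  have hcol0 : ∀ q, N1 q 0 = 1 := fun q => by
    rw [hN1]
    rfl
  have hcolS : ∀ (r : Fin 3) q, N1 q r.succ = w (i r) q := fun r q => by
    rw [hN1]
    fin_cases r <;> rfl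
  have hspanN : ∀ j, InSpan V w (fun q => N1 q j) := by
    intro j
    rw [hN1]
    fin_cases j
    · exact h1s
    · exact span_w V w (i 0)
    · exact span_w V w (i 1)
    · exact span_w V w (i 2)
  -- coordinates are in `V`
  have hco : ∀ x, InSpan V w x → ∀ m, co N1 x m ∈ V := by
    intro x hx m
    have h1 : co N1 x m = (N1.updateCol m x).det / N1.det := by
      rw [← co_cramer N1 hne, mul_div_cancel_left₀ _ hne]
    rw [h1, div_mem_iff V hne]
    have h2 : N1.updateCol m x = Matrix.of fun q j =>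
        (Function.update (fun j q => N1 q j) m x : Fin 4 → Fin 4 → L) j q := by
      ext q j
      rw [Matrix.updateCol_apply, Matrix.of_apply]
      by_cases h : j = m
      · rw [if_pos h, h, Function.update_self]
      · rw [if_neg h, Function.update_of_ne h]
    rw [h2]
    refine hdet _ fun j => ?_
    by_cases h : j = m
    · rw [h, Function.update_self]
      exact hx
    · rw [Function.update_of_ne h]
      exact hspanN j
  have hsc : ∀ r s m, sc N1 r s m ∈ V := by
    intro r s m
    unfold sc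
    apply hco
    have h1 : (fun q => N1 q r.succ * N1 q s.succ) = w (i r) * w (i s) := by
      funext q
      rw [hcolS, hcolS]
      rfl
    rw [h1]
    exact hp _ _
  obtain ⟨X0, hX0⟩ := Finite.exists_max (fun X : Fin 15 => V.valuation (pL (sc N1) X))
  obtain ⟨τ, hτ0⟩ : ∃ t, t = pL (sc N1) X0 := ⟨_, rfl⟩
  rw [← hτ0] at hX0
  have hτ : ∀ X, ∃ c ∈ V.toSubring, pL (sc N1) X = τ * c := by
    intro X
    by_cases h : τ = 0
    · refine ⟨0, V.toSubring.zero_mem, ?_⟩
      have h1 := hX0 X
      rw [h, map_zero] at h1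
      rw [mul_zero]
      exact (map_eq_zero V.valuation).1 (le_antisymm h1 zero_le)
    · refine ⟨pL (sc N1) X / τ, ?_, ?_⟩
      · exact (div_mem_iff V h).2 (hX0 X)
      · rw [mul_div_cancel₀ _ h]
  -- the alternants
  have hLam : ∀ x y z, InSpan V w x → InSpan V w y → InSpan V w z → ∀ X,
      ∃ c ∈ V, Lam (cols x y z) X = N1.det * (τ * c) := by
    intro x y z hx hy hz X
    let E : Fin 4 → Fin 4 → L := ![Pi.single 0 1, co N1 x, co N1 y, co N1 z]
    have hG : N1 * (Matrix.of fun m j => E j m) = cols x y z := by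
      ext q j
      have h1 : (N1 * (Matrix.of fun m j => E j m)) q j = (N1 *ᵥ E j) q := rfl
      rw [h1, cols_eq, Matrix.of_apply]
      fin_cases j
      · show (N1 *ᵥ Pi.single 0 1) q = 1
        rw [Matrix.mulVec_single_one]
        exact hcol0 q
      · exact congrFun (mul_co N1 hne x) q
      · exact congrFun (mul_co N1 hne y) q
      · exact congrFun (mul_co N1 hne z) q
    have h2 := hT L V.toSubring N1 hcol0 hne τ hτ (Matrix.of fun m j => E j m) (fun m j => by
      rw [Matrix.of_apply]
      fin_cases j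
      · show (Pi.single 0 1 : Fin 4 → L) m ∈ V.toSubring
        by_cases h : m = 0
        · rw [h, Pi.single_eq_same]
          exact V.toSubring.one_mem
        · rw [Pi.single_eq_of_ne h]
          exact V.toSubring.zero_mem
      · exact hco x hx m
      · exact hco y hy m
      · exact hco z hz m) (fun m => by
      show (Pi.single 0 1 : Fin 4 → L) m = if m = 0 then 1 else 0
      rw [Pi.single_apply]) X
    obtain ⟨c, hc, h3⟩ := h2
    rw [hG] at h3
    exact ⟨c, hc, h3⟩
  have hτne : τ ≠ 0 := by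
    intro h
    obtain ⟨c, -, hc⟩ := hLam x0 y0 1 hx0 hy0 h1s 2
    rw [Lam_two, h, zero_mul, mul_zero, neg_eq_zero] at hc
    exact hf0 hc
  have hLamle : ∀ x y z, InSpan V w x → InSpan V w y → InSpan V w z → ∀ X,
      V.valuation (Lam (cols x y z) X) ≤ V.valuation (N1.det * τ) := by
    intro x y z hx hy hz X
    obtain ⟨c, hc, h⟩ := hLam x y z hx hy hz X
    rw [h, ← mul_assoc, map_mul]
    exact mul_le_of_le_one_right' ((V.valuation_le_one_iff c).2 hc)
  have hDτ : N1.det * τ ≠ 0 := mul_ne_zero hne hτne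
  have hvDτ : 0 < V.valuation (N1.det * τ) := val_pos V hDτ
  -- step three
  let Q : Submodule k L :=
    { carrier := {x | V.valuation x < V.valuation (N1.det * τ)}
      zero_mem' := by
        show V.valuation 0 < _
        rw [map_zero]
        exact hvDτ
      add_mem' := fun {x y} hx hy => by
        show V.valuation (x + y) < _
        exact Valuation.map_add_lt _ hx hy
      smul_mem' := fun c x hx => by
        show V.valuation (c • x) < _
        rw [Algebra.smul_def, map_mul]
        have h1 : V.valuation (algebraMap k L c) ≤ 1 := (V.valuation_le_one_iff _).2 (hk c)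
        exact lt_of_le_of_lt (mul_le_of_le_one_left' h1) hx }
  obtain ⟨c, c', hc, hc', hcc⟩ : ∃ c c' : Fin 3 → k, (∀ l, c l = 0 ∨ c l = 1 ∨ c l = a) ∧
      (∀ l, c' l = 0 ∨ c' l = 1 ∨ c' l = a) ∧ V.valuation (N1.det * τ) ≤ V.valuation
        (fd (c 0 • w (i 0) + c 1 • w (i 1) + c 2 • w (i 2))
          (c' 0 • w (i 0) + c' 1 • w (i 1) + c' 2 • w (i 2))) := by
    by_contra hcon
    push Not at hcon
    have h1 := hPOL k L a ha (w (i 0)) (w (i 1)) (w (i 2)) Q
      (fun c c' hc hc' => hcon c c' hc hc') X0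
    rw [← hN1, Lam_eq N1 hne, ← hτ0] at h1
    have h2 : V.valuation (N1.det * τ) < V.valuation (N1.det * τ) := h1
    exact lt_irrefl _ h2
  have hcomb : ∀ c : Fin 3 → k,
      InSpan V w (c 0 • w (i 0) + c 1 • w (i 1) + c 2 • w (i 2)) := by
    intro c
    have h1 : ∀ l, InSpan V w (c l • w (i l)) := by
      intro l
      rw [← algebraMap_smul L (c l) (w (i l))]
      exact span_smul V w (span_w V w (i l)) (hk (c l))
    exact span_add V w (span_add V w (h1 0) (h1 1)) (h1 2)
  obtain ⟨u, hu⟩ : ∃ u, u = c 0 • w (i 0) + c 1 • w (i 1) + c 2 • w (i 2) := ⟨_, rfl⟩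
  obtain ⟨v, hv⟩ : ∃ v, v = c' 0 • w (i 0) + c' 1 • w (i 1) + c' 2 • w (i 2) := ⟨_, rfl⟩
  have hus : InSpan V w u := hu ▸ hcomb c
  have hvs : InSpan V w v := hv ▸ hcomb c'
  rw [← hu, ← hv] at hcc
  have hfdle : V.valuation (fd u v) ≤ V.valuation (N1.det * τ) := by
    have h1 := hLamle u v 1 hus hvs h1s 2
    rwa [Lam_two, Valuation.map_neg] at h1
  have hfd : V.valuation (fd u v) = V.valuation (N1.det * τ) := le_antisymm hfdle hcc
  have hfdne : fd u v ≠ 0 := by
    intro h
    rw [h, map_zero] at hfd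
    exact hvDτ.ne hfd
  -- step four
  obtain ⟨α, w', hw', heq⟩ := hP L V.toSubring N1 hcol0 hne τ hτ (co N1 u) (co N1 v)
    (fun m => hco u hus m) (fun m => hco v hvs m)
  rw [mul_co N1 hne, mul_co N1 hne] at heq
  have hfdeq : fd u v = τ * ∑ r : Fin 3, w' r * (cols u v (w (i r))).det := by
    have h1 : (fun q => u q * v q) = α • (1 : Fin 4 → L) + nn (tL (sc N1)) (co N1 v) • u +
        nn (tL (sc N1)) (co N1 u) • v + τ • ∑ r : Fin 3, w' r • w (i r) := by
      funext q
      rw [heq q, Pi.add_apply, Pi.add_apply, Pi.add_apply, Pi.smul_apply, Pi.smul_apply,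
        Pi.smul_apply, Pi.smul_apply, Finset.sum_apply, Pi.one_apply, smul_eq_mul, smul_eq_mul,
        smul_eq_mul, smul_eq_mul, mul_one]
      congr 2
      refine Finset.sum_congr rfl fun r _ => ?_
      rw [hcolS, Pi.smul_apply, smul_eq_mul]
    unfold fd
    rw [← dl_apply, h1, map_add, map_add, map_add, map_smul, map_smul, map_smul, map_smul,
      map_sum, dl_one, dl_u, dl_v, smul_zero, smul_zero, smul_zero, zero_add, zero_add, zero_add,
      smul_eq_mul]
    congr 1
    refine Finset.sum_congr rfl fun r _ => ?_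
    rw [map_smul, smul_eq_mul, dl_apply]
  obtain ⟨r, hr⟩ : ∃ r : Fin 3, V.valuation N1.det ≤ V.valuation (cols u v (w (i r))).det := by
    by_contra hcon
    push Not at hcon
    have h1 : V.valuation (∑ r : Fin 3, w' r * (cols u v (w (i r))).det) <
        V.valuation N1.det := by
      refine Valuation.map_sum_lt' _ (val_pos V hne) fun r _ => ?_
      rw [map_mul]
      exact lt_of_le_of_lt
        (mul_le_of_le_one_left' ((V.valuation_le_one_iff _).2 (hw' r))) (hcon r)
    have h2 : V.valuation (fd u v) < V.valuation (N1.det * τ) := by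
      rw [hfdeq, map_mul, map_mul, mul_comm (V.valuation N1.det)]
      exact mul_lt_mul_of_pos_left h1 (val_pos V hτne)
    exact h2.ne hfd
  have hDle : V.valuation (cols u v (w (i r))).det ≤ V.valuation N1.det :=
    hcoldet u v _ hus hvs (span_w V w (i r))
  have hD : V.valuation (cols u v (w (i r))).det = V.valuation N1.det := le_antisymm hDle hr
  have hDne : (cols u v (w (i r))).det ≠ 0 := by
    intro h
    rw [h, map_zero] at hD
    exact (val_pos V hne).ne hD
  refine ⟨c, c', ![i 0, i 1, i 2, i r], hc, hc', ?_⟩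
  intro u' v' hu' hv' N hN
  have hu1 : u' = u := hu'.trans hu.symm
  have hv1 : v' = v := hv'.trans hv.symm
  have hN' : N = cols u v (w (i r)) := by
    rw [hN, hu1, hv1]
    rfl
  rw [hN']
  refine ⟨hDne, ?_, ?_, ?_⟩
  · rw [Lam_two]
    exact neg_ne_zero.2 hfdne
  · intro h hh
    rw [div_mem_iff V hDne, hD]
    exact hdet h hh
  · intro x y z hx hy hz X
    rw [Lam_two, div_mem_iff V (neg_ne_zero.2 hfdne), Valuation.map_neg, hfd]
    exact hLamle x y z hx hy hz X

end Pool.Agent.H720.QS.VAL
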